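import Pool.Agent.Q257.Lap.Gap2
import Pool.Agent.Q257.Lap.Restr

/-!
# No polygonal digraph has Laplacian spread strictly between zero and one

If the spread of a digraph lies strictly between `0` and `1`, the numbers
`d_i + d_j + a_ij + a_ji` take two consecutive values `m`, `m + 1`, and the graph of the pairs with
the larger value has a small adjacency form on the vectors of zero sum.  A structure theorem and a
divisibility condition leave only digraphs of order four, where `α` is `(2m + 1 - √3) / 4` and is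
attained on one line only; for a polygonal digraph `α` would be an eigenvalue of an integral
matrix, which a parity argument excludes.
-/

set_option autoImplicit false

namespace Pool.Agent.Results.MP_e61cf5_co.NoGap

open Matrix Finset Pool.Agent.Q257.Lap

/-- The Laplacian as a complex matrix. -/
noncomputable def clap {n : ℕ} (E : Fin n → Fin n → Prop) : Matrix (Fin n) (Fin n) ℂ :=
  (lap E).map (fun t : ℝ => (t : ℂ))

/-- The restricted numerical range. -/
def Wr {n : ℕ} (E : Fin n → Fin n → Prop) : Set ℂ :=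
  {w | ∃ x : Fin n → ℂ, ∑ i, x i = 0 ∧ ∑ i, ‖x i‖ ^ 2 = 1 ∧ w = star x ⬝ᵥ (clap E *ᵥ x)}

/-- Restrictor matrices: the `n - 1` columns are orthonormal and orthogonal to the all-ones
vector. -/
def Restrictor {n : ℕ} (Q : Matrix (Fin n) (Fin (n - 1)) ℂ) : Prop :=
  Qᴴ * Q = 1 ∧ ∀ j, ∑ i, Q i j = 0

/-- Polygonal digraphs: for some restrictor matrix `Q` the restricted numerical range is the
convex hull of the eigenvalues of `Q* L Q`. -/
def Polygonal {n : ℕ} (E : Fin n → Fin n → Prop) : Prop :=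
  ∃ Q : Matrix (Fin n) (Fin (n - 1)) ℂ, Restrictor Q ∧
    Wr E = convexHull ℝ (spectrum ℂ (Qᴴ * clap E * Q))

lemma clap_mulVec_re {n : ℕ} (E : Fin n → Fin n → Prop) (x : Fin n → ℂ) (i : Fin n) :
    ((clap E *ᵥ x) i).re = (lap E *ᵥ (fun k => (x k).re)) i := by
  simp only [clap, Matrix.mulVec, dotProduct, Matrix.map_apply, Complex.re_sum,
    Complex.re_ofReal_mul]

lemma clap_mulVec_im {n : ℕ} (E : Fin n → Fin n → Prop) (x : Fin n → ℂ) (i : Fin n) :
    ((clap E *ᵥ x) i).im = (lap E *ᵥ (fun k => (x k).im)) i := by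
  simp only [clap, Matrix.mulVec, dotProduct, Matrix.map_apply, Complex.im_sum,
    Complex.im_ofReal_mul]

lemma form_re {n : ℕ} (E : Fin n → Fin n → Prop) (x : Fin n → ℂ) :
    (star x ⬝ᵥ (clap E *ᵥ x)).re =
      quad E (fun k => (x k).re) + quad E (fun k => (x k).im) := by
  rw [← quad_eq, ← quad_eq]
  simp only [dotProduct, Complex.re_sum, ← Finset.sum_add_distrib, Pi.star_apply]
  apply Finset.sum_congr rfl
  intro i _
  rw [← clap_mulVec_re, ← clap_mulVec_im]
  simp

lemma form_real {n : ℕ} (E : Fin n → Fin n → Prop) (x : Fin n → ℝ) :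
    star (fun i => (x i : ℂ)) ⬝ᵥ (clap E *ᵥ (fun i => (x i : ℂ))) = ((quad E x : ℝ) : ℂ) := by
  rw [← quad_eq]
  simp only [dotProduct, Pi.star_apply, Matrix.mulVec, clap, Matrix.map_apply]
  push_cast
  apply Finset.sum_congr rfl
  intro i _
  rw [show star (x i : ℂ) = (x i : ℂ) from Complex.conj_ofReal _]

lemma sqrt3_indep (p q : ℤ) (h : (p : ℝ) = q * Real.sqrt 3) : p = 0 ∧ q = 0 := by
  have hirr : Irrational (Real.sqrt 3) := by
    have := Nat.Prime.irrational_sqrt (p := 3) (by norm_num)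
    exact_mod_cast this
  have hq : q = 0 := by
    by_contra hq
    have hq' : (q : ℝ) ≠ 0 := by exact_mod_cast hq
    apply hirr
    refine ⟨(p : ℚ) / q, ?_⟩
    push_cast
    rw [h]; field_simp
  subst hq
  simp at h
  exact ⟨h, rfl⟩

lemma lap_int {n : ℕ} (E : Fin n → Fin n → Prop) (i j : Fin n) : ∃ k : ℤ, lap E i j = k := by
  obtain ⟨a, ha⟩ := dg_int E i
  obtain ⟨b, hb⟩ := adj_int E i j
  unfold lap
  rw [Matrix.sub_apply, Matrix.diagonal_apply]
  split_ifs with h
  · subst h
    exact ⟨a - b, by push_cast; rw [← ha, ← hb]; rfl⟩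
  · exact ⟨-b, by push_cast; rw [← hb]; ring⟩

lemma sq_zero {p q r s : ℝ} {p' q' r' s' : ℝ}
    (h : (p - p') ^ 2 / 4 + (q - q') ^ 2 + ((r - r') ^ 2 / 4 + (s - s') ^ 2) = 0) :
    p - p' = 0 ∧ q - q' = 0 ∧ r - r' = 0 ∧ s - s' = 0 := by
  have h1 := sq_nonneg (p - p')
  have h2 := sq_nonneg (q - q')
  have h3 := sq_nonneg (r - r')
  have h4 := sq_nonneg (s - s')
  refine ⟨?_, ?_, ?_, ?_⟩ <;> apply pow_eq_zero_iff (two_ne_zero) |>.1 <;> linarith

/-- No polygonal digraph has spread strictly between zero and one. -/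
theorem main {n : ℕ} (hn : 2 ≤ n) (E : Fin n → Fin n → Prop) (hE : ∀ i, ¬ E i i)
    (hP : Polygonal E) (h0 : 0 < spread E) (h1 : spread E < 1) : False := by
  obtain ⟨m, s, t, a, b, c, z, hs, ht, hsum, hn4, hnd, hform⟩ := gap_form hn E hE h0 h1
  subst hn4
  obtain ⟨Q, ⟨hQ, hQe⟩, hW⟩ := hP
  simp only [List.nodup_cons, List.mem_cons, List.not_mem_nil, or_false, not_or,
    List.nodup_nil, and_true] at hnd
  obtain ⟨⟨nab, nac, naz⟩, ⟨nbc, nbz⟩, ncz, -⟩ := hnd
  have s3 : Real.sqrt 3 ^ 2 = 3 := Real.sq_sqrt (by norm_num)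
  have hs2 : s ^ 2 = 3 := by rcases hs with rfl | rfl <;> simp [s3]
  set κ : ℝ := (2 * m + 1 - Real.sqrt 3) / 4 with hκ
  -- the minimiser
  set w : Fin 4 → ℝ := fun i => if i = a then s else if i = b then 1 else if i = c then 1
    else -(2 + s) with hw
  have wa : w a = s := by simp [hw]
  have wb : w b = 1 := by simp [hw, Ne.symm nab]
  have wc : w c = 1 := by simp [hw, Ne.symm nac]
  have wz : w z = -(2 + s) := by simp [hw, Ne.symm naz, Ne.symm nbz, Ne.symm ncz]
  have wsum : ∑ i, w i = 0 := by rw [hsum, wa, wb, wc, wz]; ring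
  have wq : quad E w = κ * ∑ i, w i ^ 2 := by
    rw [hform w wsum, wa, wb, wc]; ring
  set N := ∑ i, w i ^ 2 with hN
  have hN0 : 0 < N := by
    rw [hN, hsum, wa, wb, wc, wz]; positivity
  -- `κ` lies in the restricted numerical range
  have hκW : (κ : ℂ) ∈ Wr E := by
    set r : ℝ := (Real.sqrt N)⁻¹ with hr
    have hr2 : r ^ 2 * N = 1 := by
      rw [hr, inv_pow, Real.sq_sqrt hN0.le, inv_mul_cancel₀ hN0.ne']
    refine ⟨fun i => ((r * w i : ℝ) : ℂ), ?_, ?_, ?_⟩
    · rw [← Complex.ofReal_sum, ← Finset.mul_sum, wsum]; simp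
    · have : ∀ i, ‖((r * w i : ℝ) : ℂ)‖ ^ 2 = r ^ 2 * w i ^ 2 := by
        intro i
        rw [Complex.norm_real, Real.norm_eq_abs, sq_abs, mul_pow]
      simp only [this]
      rw [← Finset.mul_sum]; exact hr2
    · rw [form_real E (fun i => r * w i), quad_smul, wq]
      congr 1
      linear_combination (-κ) * hr2
  rw [hW] at hκW
  -- an eigenvalue with small real part
  obtain ⟨l, hl, hlκ⟩ : ∃ l ∈ spectrum ℂ (Qᴴ * clap E * Q), l.re ≤ κ := by
    by_contra hcon
    push Not at hcon
    have hsub : convexHull ℝ (spectrum ℂ (Qᴴ * clap E * Q)) ⊆ {y : ℂ | κ < y.re} :=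
      convexHull_min (fun y hy => hcon y hy) (convex_halfSpace_re_gt κ)
    have := hsub hκW
    simp at this
  obtain ⟨y, hy0, hy⟩ := (exists_eigvec _ _).1 hl
  set x : Fin 4 → ℂ := Q *ᵥ y with hx
  have hQx : Qᴴ *ᵥ x = y := by rw [hx, Matrix.mulVec_mulVec, hQ, Matrix.one_mulVec]
  have hx0 : x ≠ 0 := by
    intro h
    apply hy0
    rw [← hQx, h, Matrix.mulVec_zero]
  have hxs : ∑ i, x i = 0 := by
    simp only [hx, Matrix.mulVec, dotProduct]
    rw [Finset.sum_comm]
    apply Finset.sum_eq_zero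
    intro j _
    rw [← Finset.sum_mul, hQe j, zero_mul]
  set μ : ℂ := (∑ k, (clap E *ᵥ x) k) / (((3 : ℕ) : ℂ) + 1) with hμ
  have heig : ∀ i, (clap E *ᵥ x) i = l * x i + μ := by
    intro i
    have h2 := qq_mulVec' (n := 3) Q hQ hQe (clap E *ᵥ x) i
    have h3 : Qᴴ *ᵥ (clap E *ᵥ x) = l • y := by
      rw [← hy, hx, ← Matrix.mulVec_mulVec, ← Matrix.mulVec_mulVec]
    rw [h3, Matrix.mulVec_smul, ← hx] at h2
    simp only [Pi.smul_apply, smul_eq_mul] at h2
    rw [h2, hμ]; ring
  -- real parts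
  have hre := form_re E x
  have hval : star x ⬝ᵥ (clap E *ᵥ x) = l * ((∑ i, ((x i).re ^ 2 + (x i).im ^ 2) : ℝ) : ℂ) := by
    simp only [dotProduct, heig, Pi.star_apply, mul_add, Finset.sum_add_distrib]
    have h4 : ∑ i, star (x i) * μ = 0 := by
      rw [← Finset.sum_mul, ← star_sum, hxs, star_zero, zero_mul]
    rw [h4, add_zero]
    push_cast
    rw [← Finset.sum_add_distrib, Finset.mul_sum]
    apply Finset.sum_congr rfl
    intro i _
    have : star (x i) * (l * x i) = l * (x i * star (x i)) := by ring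
    rw [this, show x i * star (x i) = ((Complex.normSq (x i) : ℝ) : ℂ) from Complex.mul_conj _,
      Complex.normSq_apply]
    push_cast; ring
  rw [hval, Complex.re_mul_ofReal] at hre
  have hrs : ∑ i, (x i).re = 0 := by rw [← Complex.re_sum, hxs]; rfl
  have his : ∑ i, (x i).im = 0 := by rw [← Complex.im_sum, hxs]; rfl
  rw [hform _ hrs, hform _ his] at hre
  set M := ∑ i, ((x i).re ^ 2 + (x i).im ^ 2) with hM
  have hMeq : M = ∑ i, (x i).re ^ 2 + ∑ i, (x i).im ^ 2 := by rw [hM, Finset.sum_add_distrib]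
  have hM0 : 0 < M := by
    have hne : ∃ i, x i ≠ 0 := by
      by_contra hcon
      push Not at hcon
      exact hx0 (funext hcon)
    obtain ⟨i, hi⟩ := hne
    have h5 : (x i).re ^ 2 + (x i).im ^ 2 ≤ M :=
      Finset.single_le_sum (f := fun i => (x i).re ^ 2 + (x i).im ^ 2)
        (fun j _ => by positivity) (Finset.mem_univ i)
    have h6 : 0 < (x i).re ^ 2 + (x i).im ^ 2 := by
      have := Complex.normSq_pos.2 hi
      rw [Complex.normSq_apply] at this
      nlinarith
    linarith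
  set D := ((x b).re - (x c).re) ^ 2 / 4 + ((x a).re - s / 2 * ((x b).re + (x c).re)) ^ 2 +
    (((x b).im - (x c).im) ^ 2 / 4 + ((x a).im - s / 2 * ((x b).im + (x c).im)) ^ 2) with hD
  have hre' : l.re * M = κ * M + t * D := by rw [hre, hMeq, hD]; ring
  have hD0 : 0 ≤ D := by rw [hD]; positivity
  have hDz : D = 0 := by
    by_contra hne
    have : 0 < D := lt_of_le_of_ne hD0 (Ne.symm hne)
    have h7 : 0 < t * D := mul_pos ht this
    have h8 := mul_le_mul_of_nonneg_right hlκ hM0.le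
    linarith
  have hlre : l.re = κ := by
    rw [hDz, mul_zero, add_zero] at hre'
    exact mul_right_cancel₀ hM0.ne' hre'
  obtain ⟨q1, q3, q2, q4⟩ := sq_zero (hD ▸ hDz)
  have q1' : (x b).re = (x c).re := by linarith
  have q2' : (x b).im = (x c).im := by linarith
  have q3' : (x a).re = s * (x b).re := by rw [← q1'] at q3; linarith
  have q4' : (x a).im = s * (x b).im := by rw [← q2'] at q4; linarith
  rw [hsum] at hrs his
  have hxw : ∀ i, x i = x b * (w i : ℂ) := by
    have e1 : x a = x b * (w a : ℂ) := by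
      rw [wa]; apply Complex.ext <;> simp [q3', q4'] <;> ring
    have e2 : x b = x b * (w b : ℂ) := by rw [wb]; simp
    have e3 : x c = x b * (w c : ℂ) := by
      rw [wc]; apply Complex.ext <;> simp [q1', q2']
    have e4 : x z = x b * (w z : ℂ) := by
      rw [wz]
      apply Complex.ext
      · simp; linear_combination hrs - q3' + q1'
      · simp; linear_combination his - q4' + q2'
    intro i
    have hi : i = a ∨ i = b ∨ i = c ∨ i = z := by
      by_contra hcon
      push Not at hcon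
      have h7 := hsum (fun j => if j = i then 1 else 0)
      simp [Ne.symm hcon.1, Ne.symm hcon.2.1, Ne.symm hcon.2.2.1, Ne.symm hcon.2.2.2] at h7
    rcases hi with rfl | rfl | rfl | rfl
    · exact e1
    · exact e2
    · exact e3
    · exact e4
  have hxb : x b ≠ 0 := by
    intro h
    apply hx0
    funext i
    rw [hxw i, h, zero_mul]; rfl
  have hLx : ∀ i, (clap E *ᵥ x) i = x b * (((lap E *ᵥ w) i : ℝ) : ℂ) := by
    intro i
    simp only [clap, Matrix.mulVec, dotProduct, Matrix.map_apply]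
    push_cast
    rw [Finset.mul_sum]
    apply Finset.sum_congr rfl
    intro j _
    rw [hxw j]; ring
  have hdiff : (((lap E *ᵥ w) b - (lap E *ᵥ w) a : ℝ) : ℂ) = l * ((1 - s : ℝ) : ℂ) := by
    have h8 := heig b
    have h9 := heig a
    rw [hLx b] at h8
    rw [hLx a, hxw a, wa] at h9
    have h10 : x b * ((((lap E *ᵥ w) b - (lap E *ᵥ w) a : ℝ) : ℂ)) =
        x b * (l * ((1 - s : ℝ) : ℂ)) := by
      push_cast
      linear_combination h8 - h9
    exact mul_left_cancel₀ hxb h10
  have hdiff' : (lap E *ᵥ w) b - (lap E *ᵥ w) a = κ * (1 - s) := by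
    have := congrArg Complex.re hdiff
    rw [Complex.ofReal_re, Complex.re_mul_ofReal, hlre] at this
    exact this
  choose k hk using lap_int E
  have hLb : ∀ i, (lap E *ᵥ w) i = k i b + k i c - 2 * k i z + s * (k i a - k i z) := by
    intro i
    simp only [Matrix.mulVec, dotProduct]
    rw [hsum, wa, wb, wc, wz, hk, hk, hk, hk]; ring
  rw [hLb b, hLb a] at hdiff'
  rcases hs with rfl | rfl
  · have h11 : (((2 * m + 4 - 4 * ((k b b + k b c - 2 * k b z) - (k a b + k a c - 2 * k a z)) : ℤ))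
        : ℝ) = ((2 * m + 2 + 4 * ((k b a - k b z) - (k a a - k a z)) : ℤ) : ℝ) * Real.sqrt 3 := by
      push_cast
      rw [hκ] at hdiff'
      linear_combination (-4) * hdiff' - s3
    obtain ⟨h12, h13⟩ := sqrt3_indep _ _ h11
    omega
  · have h11 : (((2 * m - 2 - 4 * ((k b b + k b c - 2 * k b z) - (k a b + k a c - 2 * k a z)) : ℤ))
        : ℝ) = ((-(2 * m) - 4 * ((k b a - k b z) - (k a a - k a z)) : ℤ) : ℝ) * Real.sqrt 3 := by
      push_cast
      rw [hκ] at hdiff'
      linear_combination (-4) * hdiff' + s3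
    obtain ⟨h12, h13⟩ := sqrt3_indep _ _ h11
    omega

/-- No polygonal digraph of order `n ≥ 2` has Laplacian spread strictly between zero and one;
and a digraph of order `n ≥ 2`, `n ≠ 4`, polygonal or not, never has. -/
theorem result :
    (∀ (n : ℕ) (_ : 2 ≤ n) (E : Fin n → Fin n → Prop), (∀ i, ¬ E i i) → Polygonal E →
      ¬ (0 < spread E ∧ spread E < 1)) ∧
    ∀ (n : ℕ) (_ : 2 ≤ n) (_ : n ≠ 4) (E : Fin n → Fin n → Prop), (∀ i, ¬ E i i) →
      ¬ (0 < spread E ∧ spread E < 1) := by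
  constructor
  · rintro n hn E hE hP ⟨h0, h1⟩
    exact main hn E hE hP h0 h1
  · rintro n hn hn4 E hE ⟨h0, h1⟩
    obtain ⟨m, s, t, a, b, c, z, -, -, -, h4, -⟩ := gap_form hn E hE h0 h1
    exact hn4 h4

end Pool.Agent.Results.MP_e61cf5_co.NoGap
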